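import Pool.Agent.Q293.Cell.Core

/-!
# The two finite checks for the 120-cell and the 600-cell
-/

set_option autoImplicit false
set_option maxRecDepth 100000

namespace Pool.Agent.Q293.Cell

def P120 : List T :=
  [((0,0),(0,0),(2,0),(2,0)), ((1,0),(1,0),(1,0),(-1,2)),
   ((2,-1),(0,1),(0,1),(0,1)), ((-1,1),(-1,1),(-1,1),(1,1)), ((0,0), (2,-1), (1,0), (1,1)),
   ((0,0),(-1,1),(0,1),(-1,2)), ((-1,1),(1,0),(0,1),(2,0))]

def b120 : T := ((1,0),(0,1),(-1,1),(0,0))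

def P600 : List T :=
  [((2,0),(0,0),(0,0),(0,0)), ((1,0),(1,0),(1,0),(1,0)), ((0,0), (-1,1), (1,0), (0,1))]

def b600 : T := ((0,1),(1,0),(-1,1),(0,0))

lemma c1 : chk1 b120 P120 = true := by decide +kernel
lemma c2 : chk2 b120 ((0,0), (2,-1), (1,0), (1,1)) P120 = true := by decide +kernel
lemma c3 : chk1 b600 P600 = true := by decide +kernel
lemma c4 : chk2 b600 ((0,0), (-1,1), (1,0), (0,1)) P600 = true := by decide +kernel
lemma c5 : Norm4 b120 := by unfold Norm4; decide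
lemma c6 : Norm4 b600 := by unfold Norm4; decide

/-- the integer pairs that occur -/
def small : List Z := [(0,0), (1,0), (2,0), (0,1), (-1,1), (2,-1), (1,1), (-1,2)]

lemma small_nonneg : ∀ z ∈ small, 0 ≤ val z := by
  have h1 := Real.one_lt_goldenRatio
  have h2 := Real.goldenRatio_lt_two
  intro z hz
  simp only [small, List.mem_cons, List.not_mem_nil, or_false] at hz
  rcases hz with rfl | rfl | rfl | rfl | rfl | rfl | rfl | rfl <;> simp only [val] <;>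
    push_cast <;> linarith

lemma d1 : ∀ v ∈ orb P120, v.1 ∈ small ∧ v.2.1 ∈ small ∧ v.2.2.1 ∈ small ∧ v.2.2.2 ∈ small := by
  decide +kernel

lemma d2 : ∀ v ∈ orb P600, v.1 ∈ small ∧ v.2.1 ∈ small ∧ v.2.2.1 ∈ small ∧ v.2.2.2 ∈ small := by
  decide +kernel

lemma n1 : ∀ v ∈ orb P120, Nonneg v := fun v hv =>
  ⟨small_nonneg _ (d1 v hv).1, small_nonneg _ (d1 v hv).2.1, small_nonneg _ (d1 v hv).2.2.1,
    small_nonneg _ (d1 v hv).2.2.2⟩

lemma n2 : ∀ v ∈ orb P600, Nonneg v := fun v hv =>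
  ⟨small_nonneg _ (d2 v hv).1, small_nonneg _ (d2 v hv).2.1, small_nonneg _ (d2 v hv).2.2.1,
    small_nonneg _ (d2 v hv).2.2.2⟩

theorem trans120 : ∀ x ∈ V P120, ∀ y ∈ V P120, ∃ g : E ≃ᵢ E, ⇑g '' V P120 = V P120 ∧ g x = y :=
  transitive c5 n1 c1 c2 (by simp [P120])

theorem trans600 : ∀ x ∈ V P600, ∀ y ∈ V P600, ∃ g : E ≃ᵢ E, ⇑g '' V P600 = V P600 ∧ g x = y :=
  transitive c6 n2 c3 c4 (by simp [P600])

end Pool.Agent.Q293.Cell
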