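import Mathlib

/-!
# Transitivity of point sets in `ℝ^4` given by golden coordinates

A pair `(a, b)` of integers stands for `a + b φ`. For a list `P` of patterns (quadruples of such
numbers) `V P` is the set of all points whose absolute coordinates are an even permutation of a
pattern. If the reflection in the line of `b` (a vector with `|b|^2 = 4`) maps `V P` to itself and
links every pattern with the first one (two finite checks), the isometries that preserve `V P` act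
transitively on it.
-/

set_option autoImplicit false

namespace Pool.Agent.Q293.Cell

abbrev Z := ℤ × ℤ
abbrev T := Z × Z × Z × Z
abbrev E := EuclideanSpace ℝ (Fin 4)

def zadd (a b : Z) : Z := (a.1 + b.1, a.2 + b.2)
def zneg (a : Z) : Z := (-a.1, -a.2)
def zmul (a b : Z) : Z := (a.1 * b.1 + a.2 * b.2, a.1 * b.2 + a.2 * b.1 + a.2 * b.2)

noncomputable def val (a : Z) : ℝ := a.1 + a.2 * Real.goldenRatio

lemma val_add (a b : Z) : val (zadd a b) = val a + val b := by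
  simp only [val, zadd]; push_cast; ring

lemma val_neg (a : Z) : val (zneg a) = - val a := by
  simp only [val, zneg]; push_cast; ring

lemma val_mul (a b : Z) : val (zmul a b) = val a * val b := by
  simp only [val, zmul]; push_cast
  have h := Real.goldenRatio_sq
  linear_combination (-(a.2 : ℝ) * b.2) * h

/-- the twelve even permutations of a quadruple -/
def ev {α : Type} : α × α × α × α → List (α × α × α × α)
  | (a, b, c, d) => [(a, b, c, d), (a, c, d, b), (a, d, b, c), (b, a, d, c), (b, c, a, d),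
      (b, d, c, a), (c, a, b, d), (c, b, d, a), (c, d, a, b), (d, a, c, b), (d, b, a, c), (d, c, b, a)]

def orb (P : List T) : List T := P.flatMap ev

/-- sign changes -/
def sg (s : Bool) (a : Z) : Z := if s then zneg a else a

def sgn (s : Bool × Bool × Bool × Bool) (v : T) : T :=
  (sg s.1 v.1, sg s.2.1 v.2.1, sg s.2.2.1 v.2.2.1, sg s.2.2.2 v.2.2.2)

def bools : List Bool := [true, false]

def signs : List (Bool × Bool × Bool × Bool) :=
  bools.flatMap fun a => bools.flatMap fun b => bools.flatMap fun c => bools.map fun d => (a, b, c, d)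

lemma mem_signs (s : Bool × Bool × Bool × Bool) : s ∈ signs := by
  revert s; decide

def dot (b v : T) : Z :=
  zadd (zadd (zmul b.1 v.1) (zmul b.2.1 v.2.1)) (zadd (zmul b.2.2.1 v.2.2.1) (zmul b.2.2.2 v.2.2.2))

def co (t b x : Z) : Z := zadd (zmul t b) (zneg (zadd x x))

/-- twice the reflection of `v` in the line of `b` -/
def refl (b v : T) : T :=
  (co (dot b v) b.1 v.1, co (dot b v) b.2.1 v.2.1, co (dot b v) b.2.2.1 v.2.2.1,
    co (dot b v) b.2.2.2 v.2.2.2)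

def eqAbs (y w : Z) : Bool :=
  (y.1 == w.1 + w.1 && y.2 == w.2 + w.2) || (y.1 == -(w.1 + w.1) && y.2 == -(w.2 + w.2))

def eqAbs4 (y w : T) : Bool :=
  eqAbs y.1 w.1 && eqAbs y.2.1 w.2.1 && eqAbs y.2.2.1 w.2.2.1 && eqAbs y.2.2.2 w.2.2.2

/-- the reflection maps the set to itself -/
def chk1 (b : T) (P : List T) : Bool :=
  (orb P).all fun v => signs.all fun s => (orb P).any fun w => eqAbs4 (refl b (sgn s v)) w

/-- the reflection links every pattern with the pattern `h` -/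
def chk2 (b h : T) (P : List T) : Bool :=
  P.all fun p => (ev p).any fun v => signs.any fun s => (ev h).any fun w =>
    eqAbs4 (refl b (sgn s v)) w

/-- the integer data of a real vector -/
def Abs (x : E) (v : T) : Prop :=
  |x 0| = val v.1 ∧ |x 1| = val v.2.1 ∧ |x 2| = val v.2.2.1 ∧ |x 3| = val v.2.2.2

def Is (x : E) (v : T) : Prop :=
  x 0 = val v.1 ∧ x 1 = val v.2.1 ∧ x 2 = val v.2.2.1 ∧ x 3 = val v.2.2.2

def Nonneg (v : T) : Prop := 0 ≤ val v.1 ∧ 0 ≤ val v.2.1 ∧ 0 ≤ val v.2.2.1 ∧ 0 ≤ val v.2.2.2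

/-- the point set -/
def V (P : List T) : Set E := {x | ∃ v ∈ orb P, Abs x v}

lemma ex_sg (x : ℝ) (a : Z) (h : |x| = val a) : ∃ s : Bool, x = val (sg s a) := by
  rcases abs_choice x with h1 | h1
  · exact ⟨false, by simp [sg, ← h, h1]⟩
  · exact ⟨true, by simp only [sg, if_true, val_neg, ← h, h1, neg_neg]⟩

lemma abs_sg (s : Bool) (a : Z) (h : 0 ≤ val a) : |val (sg s a)| = val a := by
  cases s
  · simp [sg, abs_of_nonneg h]
  · simp [sg, val_neg, abs_of_nonneg h]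

lemma exists_is {x : E} {v : T} (h : Abs x v) : ∃ s, Is x (sgn s v) := by
  obtain ⟨s0, h0⟩ := ex_sg _ _ h.1
  obtain ⟨s1, h1⟩ := ex_sg _ _ h.2.1
  obtain ⟨s2, h2⟩ := ex_sg _ _ h.2.2.1
  obtain ⟨s3, h3⟩ := ex_sg _ _ h.2.2.2
  exact ⟨(s0, s1, s2, s3), h0, h1, h2, h3⟩

lemma eqAbs_val {y w : Z} (h : eqAbs y w = true) (hw : 0 ≤ val w) (r : ℝ) (hr : 2 * r = val y) :
    |r| = val w := by
  simp only [eqAbs, Bool.or_eq_true, Bool.and_eq_true, beq_iff_eq] at h
  rcases h with ⟨h1, h2⟩ | ⟨h1, h2⟩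
  · have : r = val w := by
      have : val y = 2 * val w := by simp only [val, h1, h2]; push_cast; ring
      linarith
    rw [this, abs_of_nonneg hw]
  · have : r = - val w := by
      have : val y = - (2 * val w) := by simp only [val, h1, h2]; push_cast; ring
      linarith
    rw [this, abs_neg, abs_of_nonneg hw]

lemma val_co (t b x : Z) (r : ℝ) (hr : r = val t * val b / 2 - val x) : 2 * r = val (co t b x) := by
  rw [hr]; simp only [co, val_add, val_neg, val_mul]; ring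

/-- the vector with the given coordinates -/
noncomputable def vec (v : T) : E := !₂[val v.1, val v.2.1, val v.2.2.1, val v.2.2.2]

lemma is_vec (v : T) : Is (vec v) v := by
  refine ⟨?_, ?_, ?_, ?_⟩ <;> simp [vec]

/-- the reflection in the line of `b` -/
noncomputable def rf (b : T) : E ≃ₗᵢ[ℝ] E := (Submodule.span ℝ {vec b}).reflection

def Norm4 (b : T) : Prop := dot b b = (4, 0)

lemma inner_vec (b v : T) (x : E) (hx : Is x v) : inner ℝ (vec b) x = val (dot b v) := by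
  rw [PiLp.inner_apply, Fin.sum_univ_four]
  simp only [dot, val_add, val_mul, hx.1, hx.2.1, hx.2.2.1, hx.2.2.2, vec]
  simp
  ring

lemma norm_vec (b : T) (hb : Norm4 b) : ‖vec b‖ ^ 2 = 4 := by
  rw [← real_inner_self_eq_norm_sq, inner_vec b b _ (is_vec b), hb]
  simp [val]

lemma rf_apply (b v : T) (hb : Norm4 b) (x : E) (hx : Is x v) (i : Fin 4) :
    rf b x i = val (dot b v) * vec b i / 2 - x i := by
  rw [rf, Submodule.reflection_singleton_apply]
  simp only [RCLike.ofReal_real_eq_id, id_eq]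
  rw [norm_vec b hb, inner_vec b v x hx]
  simp
  ring

lemma rf_abs {b v w : T} (hb : Norm4 b) {x : E} (hx : Is x v) (hw : Nonneg w)
    (h : eqAbs4 (refl b v) w = true) : Abs (rf b x) w := by
  simp only [eqAbs4, Bool.and_eq_true, refl] at h
  obtain ⟨⟨⟨h0, h1⟩, h2⟩, h3⟩ := h
  refine ⟨eqAbs_val h0 hw.1 _ (val_co _ _ _ _ ?_), eqAbs_val h1 hw.2.1 _ (val_co _ _ _ _ ?_),
    eqAbs_val h2 hw.2.2.1 _ (val_co _ _ _ _ ?_), eqAbs_val h3 hw.2.2.2 _ (val_co _ _ _ _ ?_)⟩
  all_goals rw [rf_apply b v hb x hx]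
  · rw [(is_vec b).1, hx.1]
  · rw [(is_vec b).2.1, hx.2.1]
  · rw [(is_vec b).2.2.1, hx.2.2.1]
  · rw [(is_vec b).2.2.2, hx.2.2.2]

/-- points that an isometry preserving `X` maps to each other -/
def Rel (X : Set E) (x y : E) : Prop := ∃ g : E ≃ᵢ E, ⇑g '' X = X ∧ g x = y

lemma Rel.symm {X : Set E} {x y : E} (h : Rel X x y) : Rel X y x := by
  obtain ⟨g, h1, h2⟩ := h
  refine ⟨g.symm, ?_, by rw [← h2]; simp⟩
  conv_lhs => rw [← h1]
  rw [← Set.image_comp]
  simp

lemma Rel.trans {X : Set E} {x y z : E} (h : Rel X x y) (h' : Rel X y z) : Rel X x z := by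
  obtain ⟨g, h1, h2⟩ := h
  obtain ⟨k, h3, h4⟩ := h'
  refine ⟨g.trans k, ?_, by simp [h2, h4]⟩
  change (⇑k ∘ ⇑g) '' X = X
  rw [Set.image_comp, h1, h3]

lemma Rel.of_maps {X : Set E} (g : E ≃ᵢ E) (h : ∀ x ∈ X, g x ∈ X) (h' : ∀ x ∈ X, g.symm x ∈ X)
    (x : E) : Rel X x (g x) := by
  refine ⟨g, ?_, rfl⟩
  apply Set.Subset.antisymm
  · rintro _ ⟨y, hy, rfl⟩
    exact h y hy
  · intro y hy
    exact ⟨g.symm y, h' y hy, by simp⟩

/-- a quadruple as a function -/
def fn {α : Type} (v : α × α × α × α) : Fin 4 → α := ![v.1, v.2.1, v.2.2.1, v.2.2.2]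

lemma ev_eq (v : T) : ev v = (ev ((0 : Fin 4), (1 : Fin 4), (2 : Fin 4), (3 : Fin 4))).map
    (fun q => (fn v q.1, fn v q.2.1, fn v q.2.2.1, fn v q.2.2.2)) := rfl

lemma mem_ev_index : ∀ a b c d : Fin 4,
    (a, b, c, d) ∈ ev ((0 : Fin 4), (1 : Fin 4), (2 : Fin 4), (3 : Fin 4)) ↔
      ∃ σ : Equiv.Perm (Fin 4), Equiv.Perm.sign σ = 1 ∧ σ 0 = a ∧ σ 1 = b ∧ σ 2 = c ∧ σ 3 = d := by
  decide +kernel

lemma mem_ev (v w : T) : w ∈ ev v ↔
    ∃ σ : Equiv.Perm (Fin 4), Equiv.Perm.sign σ = 1 ∧ ∀ i, fn w i = fn v (σ i) := by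
  rw [ev_eq, List.mem_map]
  constructor
  · rintro ⟨⟨a, b, c, d⟩, h1, rfl⟩
    obtain ⟨σ, h2, h3, h4, h5, h6⟩ := (mem_ev_index a b c d).1 h1
    refine ⟨σ, h2, fun i => ?_⟩
    fin_cases i
    · simp [fn, h3]
    · simp [fn, h4]
    · simp [fn, h5]
    · simp [fn, h6]
  · rintro ⟨σ, h1, h2⟩
    refine ⟨(σ 0, σ 1, σ 2, σ 3), (mem_ev_index _ _ _ _).2 ⟨σ, h1, rfl, rfl, rfl, rfl⟩, ?_⟩
    have e0 := h2 0
    have e1 := h2 1
    have e2 := h2 2
    have e3 := h2 3
    obtain ⟨a, b, c, d⟩ := w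
    simp only [fn, Matrix.cons_val_zero, Matrix.cons_val_one, Matrix.cons_val] at e0 e1 e2 e3
    simp only [fn, e0, e1, e2, e3]

lemma abs_iff (x : E) (v : T) : Abs x v ↔ ∀ i, |x i| = val (fn v i) := by
  rw [Fin.forall_fin_succ, Fin.forall_fin_succ, Fin.forall_fin_succ, Fin.forall_fin_one]
  rfl

lemma mem_V (P : List T) (x : E) : x ∈ V P ↔
    ∃ p ∈ P, ∃ σ : Equiv.Perm (Fin 4), Equiv.Perm.sign σ = 1 ∧ ∀ i, |x i| = val (fn p (σ i)) := by
  simp only [V, orb, Set.mem_ofPred_eq, List.mem_flatMap]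
  constructor
  · rintro ⟨v, ⟨p, hp, hv⟩, h⟩
    obtain ⟨σ, h1, h2⟩ := (mem_ev p v).1 hv
    exact ⟨p, hp, σ, h1, fun i => by rw [(abs_iff x v).1 h i, h2]⟩
  · rintro ⟨p, hp, σ, h1, h2⟩
    refine ⟨(fn p (σ 0), fn p (σ 1), fn p (σ 2), fn p (σ 3)), ⟨p, hp, (mem_ev _ _).2
      ⟨σ, h1, fun i => ?_⟩⟩, (abs_iff _ _).2 fun i => ?_⟩
    · fin_cases i <;> rfl
    · rw [h2 i]; fin_cases i <;> rfl

/-- permutation of the coordinates -/
noncomputable def gp (σ : Equiv.Perm (Fin 4)) : E ≃ₗᵢ[ℝ] E :=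
  LinearIsometryEquiv.piLpCongrLeft 2 ℝ ℝ σ

lemma gp_apply (σ : Equiv.Perm (Fin 4)) (x : E) (i : Fin 4) : gp σ x i = x (σ.symm i) := rfl

lemma gp_mem {P : List T} {σ : Equiv.Perm (Fin 4)} (hσ : Equiv.Perm.sign σ = 1) {x : E}
    (hx : x ∈ V P) : gp σ x ∈ V P := by
  rw [mem_V] at hx ⊢
  obtain ⟨p, hp, τ, h1, h2⟩ := hx
  refine ⟨p, hp, τ * σ⁻¹, by simp [h1, hσ], fun i => ?_⟩
  rw [gp_apply, h2]
  rfl

lemma gp_rel {P : List T} {σ : Equiv.Perm (Fin 4)} (hσ : Equiv.Perm.sign σ = 1) (x : E) :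
    Rel (V P) x (gp σ x) := by
  refine Rel.of_maps (gp σ).toIsometryEquiv (fun x hx => gp_mem hσ hx) (fun x hx => ?_) x
  have : (gp σ).toIsometryEquiv.symm x = gp σ⁻¹ x := by
    change (gp σ).symm x = gp σ⁻¹ x
    rw [gp, LinearIsometryEquiv.piLpCongrLeft_symm]
    rfl
  rw [this]
  exact gp_mem (by simp [hσ]) hx

/-- sign changes -/
noncomputable def gs (s : Fin 4 → Bool) : E ≃ₗᵢ[ℝ] E :=
  LinearIsometryEquiv.piLpCongrRight 2
    (fun i => if s i then LinearIsometryEquiv.neg ℝ else LinearIsometryEquiv.refl ℝ ℝ)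

lemma gs_apply (s : Fin 4 → Bool) (x : E) (i : Fin 4) : gs s x i = if s i then - x i else x i := by
  change (if s i then LinearIsometryEquiv.neg ℝ else LinearIsometryEquiv.refl ℝ ℝ) (x i) = _
  cases s i <;> simp

lemma gs_mem {P : List T} (s : Fin 4 → Bool) {x : E} (hx : x ∈ V P) : gs s x ∈ V P := by
  rw [mem_V] at hx ⊢
  obtain ⟨p, hp, τ, h1, h2⟩ := hx
  refine ⟨p, hp, τ, h1, fun i => ?_⟩
  rw [gs_apply, ← h2]
  cases s i <;> simp

lemma gs_rel {P : List T} (s : Fin 4 → Bool) (x : E) : Rel (V P) x (gs s x) := by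
  refine Rel.of_maps (gs s).toIsometryEquiv (fun x hx => gs_mem s hx) (fun x hx => ?_) x
  have : (gs s).toIsometryEquiv.symm x = gs s x := by
    apply (gs s).toIsometryEquiv.symm_apply_eq.2
    change x = gs s (gs s x)
    ext i
    rw [gs_apply, gs_apply]
    cases s i <;> simp
  rw [this]
  exact gs_mem s hx

/-- all points of the family of `p` are equivalent -/
lemma rel_vec {P : List T} {p : T} {x : E} {σ : Equiv.Perm (Fin 4)} (hσ : Equiv.Perm.sign σ = 1)
    (h : ∀ i, |x i| = val (fn p (σ i))) : Rel (V P) x (vec p) := by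
  have h1 := gs_rel (P := P) (fun i => decide (x i < 0)) x
  refine h1.trans ?_
  have h2 := gp_rel (P := P) hσ (gs (fun i => decide (x i < 0)) x)
  have h3 : gp σ (gs (fun i => decide (x i < 0)) x) = vec p := by
    ext i
    rw [gp_apply, gs_apply]
    have h4 := h (σ.symm i)
    rw [Equiv.apply_symm_apply] at h4
    have h5 : (if decide (x (σ.symm i) < 0) = true then -x (σ.symm i) else x (σ.symm i)) =
        |x (σ.symm i)| := by
      by_cases h6 : x (σ.symm i) < 0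
      · simp [h6, abs_of_neg h6]
      · simp [h6, abs_of_nonneg (not_lt.1 h6)]
    rw [h5, h4]
    fin_cases i <;> simp [vec, fn]
  rwa [h3] at h2

lemma rel_of_abs {P : List T} {p v : T} {x : E} (hv : v ∈ ev p) (h : Abs x v) :
    Rel (V P) x (vec p) := by
  obtain ⟨σ, h1, h2⟩ := (mem_ev p v).1 hv
  exact rel_vec h1 (fun i => by rw [(abs_iff x v).1 h i, h2])

section main

variable {b h : T} {P : List T}

lemma rf_mem (hb : Norm4 b) (hP : ∀ v ∈ orb P, Nonneg v) (h1 : chk1 b P = true) {x : E}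
    (hx : x ∈ V P) : rf b x ∈ V P := by
  obtain ⟨v, hv, hxv⟩ := hx
  obtain ⟨s, hs⟩ := exists_is hxv
  rw [chk1, List.all_eq_true] at h1
  have h2 := h1 v hv
  rw [List.all_eq_true] at h2
  have h3 := h2 s (mem_signs s)
  rw [List.any_eq_true] at h3
  obtain ⟨w, hw, h4⟩ := h3
  exact ⟨w, hw, rf_abs hb hs (hP w hw) h4⟩

lemma rf_rel (hb : Norm4 b) (hP : ∀ v ∈ orb P, Nonneg v) (h1 : chk1 b P = true) (x : E) :
    Rel (V P) x (rf b x) := by
  refine Rel.of_maps (rf b).toIsometryEquiv (fun x hx => rf_mem hb hP h1 hx) (fun x hx => ?_) x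
  have : (rf b).toIsometryEquiv.symm x = rf b x := by
    change (rf b).symm x = rf b x
    rw [rf, Submodule.reflection_symm]
  rw [this]
  exact rf_mem hb hP h1 hx

lemma rel_head (hb : Norm4 b) (hP : ∀ v ∈ orb P, Nonneg v) (h1 : chk1 b P = true)
    (h2 : chk2 b h P = true) (hh : h ∈ P) {x : E} (hx : x ∈ V P) : Rel (V P) x (vec h) := by
  obtain ⟨p, hp, σ, h3, h4⟩ := (mem_V P x).1 hx
  have h5 : Rel (V P) x (vec p) := rel_vec h3 h4
  refine h5.trans ?_
  rw [chk2, List.all_eq_true] at h2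
  have h6 := h2 p hp
  rw [List.any_eq_true] at h6
  obtain ⟨v, hv, h7⟩ := h6
  rw [List.any_eq_true] at h7
  obtain ⟨s, -, h8⟩ := h7
  rw [List.any_eq_true] at h8
  obtain ⟨w, hw, h9⟩ := h8
  have hvo : v ∈ orb P := List.mem_flatMap.2 ⟨p, hp, hv⟩
  have hwo : w ∈ orb P := List.mem_flatMap.2 ⟨h, hh, hw⟩
  have ha : Abs (vec (sgn s v)) v := by
    have hn := hP v hvo
    have hi := is_vec (sgn s v)
    exact ⟨by rw [hi.1]; exact abs_sg _ _ hn.1, by rw [hi.2.1]; exact abs_sg _ _ hn.2.1,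
      by rw [hi.2.2.1]; exact abs_sg _ _ hn.2.2.1, by rw [hi.2.2.2]; exact abs_sg _ _ hn.2.2.2⟩
  have h10 : Rel (V P) (vec p) (vec (sgn s v)) := (rel_of_abs hv ha).symm
  have h11 := rf_rel hb hP h1 (vec (sgn s v))
  have h12 : Abs (rf b (vec (sgn s v))) w := rf_abs hb (is_vec _) (hP w hwo) h9
  exact (h10.trans h11).trans (rel_of_abs hw h12)

/-- the isometries that preserve `V P` act transitively on it -/
theorem transitive (hb : Norm4 b) (hP : ∀ v ∈ orb P, Nonneg v) (h1 : chk1 b P = true)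
    (h2 : chk2 b h P = true) (hh : h ∈ P) :
    ∀ x ∈ V P, ∀ y ∈ V P, ∃ g : E ≃ᵢ E, ⇑g '' V P = V P ∧ g x = y := fun x hx y hy =>
  (rel_head hb hP h1 h2 hh hx).trans (rel_head hb hP h1 h2 hh hy).symm

end main

/-- `V P` is finite -/
theorem finite_V (P : List T) : (V P).Finite := by
  refine Set.Finite.subset (((List.finite_toSet (orb P)).prod
    (Set.finite_univ (α := Bool × Bool × Bool × Bool))).image
      (fun q => vec (sgn q.2 q.1))) ?_
  rintro x ⟨v, hv, hx⟩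
  obtain ⟨s, hs⟩ := exists_is hx
  refine ⟨(v, s), ⟨hv, Set.mem_univ _⟩, ?_⟩
  ext i
  have hi := is_vec (sgn s v)
  fin_cases i
  · exact hi.1.trans hs.1.symm
  · exact hi.2.1.trans hs.2.1.symm
  · exact hi.2.2.1.trans hs.2.2.1.symm
  · exact hi.2.2.2.trans hs.2.2.2.symm

end Pool.Agent.Q293.Cell
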